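import Pool.Agent.H42.Nnr1

open Pool.Agent.H42.NnrDefs Cardinal

theorem Pool.Agent.Results.MP_31a5ad_lc.Cons.result (X : Set (ℕ → ℕ)) (hX : #X ≤ ℵ₁)
    (hm : ¬ IsMeagre X) :
    (∃ (T : Type) (_ : PartialOrder T) (_ : WellFoundedLT T),
      Arons ℵ₁ T ∧ #T = ℵ₁ ∧ ¬ SpecNNR T) ∧ noNum ≤ ℵ₁ ∧ ((ℵ₁ : Cardinal.{0}) < 𝔠 → noNum < 𝔠) := by
  have h := Pool.Agent.H42.Nnr1.main hX hm
  have h1 : noNum ≤ ℵ₁ := csInf_le' ⟨aleph0_lt_aleph_one.le, h⟩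
  exact ⟨h, h1, h1.trans_lt⟩
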